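import Mathlib

set_option autoImplicit false

universe u

namespace Pool.Agent.Lib.MP_360cb4_gt

open Set

/-- Saturated subsets: upper sets of the specialization order `x ≤ y ↔ x ∈ closure {y}`. -/
def Saturated {X : Type u} [TopologicalSpace X] (A : Set X) : Prop :=
  ∀ x ∈ A, ∀ y : X, x ∈ closure ({y} : Set X) → y ∈ A

/-- The underlying set of the Smyth power space `P_S(X)`: the nonempty compact saturated
subsets of `X`. -/
def PS (X : Type u) [TopologicalSpace X] : Type u :=
  {K : Set X // K.Nonempty ∧ IsCompact K ∧ Saturated K}

/-- `box U` is the set of all nonempty compact saturated `K` with `K ⊆ U`. -/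
def box {X : Type u} [TopologicalSpace X] (U : Set X) : Set (PS X) := {K | K.1 ⊆ U}

/-- The upper Vietoris topology on `P_S(X)`, with base the sets `box U`, `U` open. -/
instance PS.instTopologicalSpace (X : Type u) [TopologicalSpace X] : TopologicalSpace (PS X) :=
  TopologicalSpace.generateFrom {W | ∃ U : Set X, IsOpen U ∧ W = box U}

/-- The underlying set of `P_H(G)` for a family `G` of subsets of `X`. -/
def PH {X : Type u} [TopologicalSpace X] (G : Set (Set X)) : Type u := {A : Set X // A ∈ G}

/-- `dia U` is the set of all members of `G` that meet `U`. -/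
def dia {X : Type u} [TopologicalSpace X] {G : Set (Set X)} (U : Set X) : Set (PH G) :=
  {A | (A.1 ∩ U).Nonempty}

/-- The topology of `P_H(G)`: it is generated by the sets `dia U`, `U` open (for a family of
irreducible sets these sets already form a topology). -/
instance PH.instTopologicalSpace {X : Type u} [TopologicalSpace X] (G : Set (Set X)) :
    TopologicalSpace (PH G) :=
  TopologicalSpace.generateFrom {W | ∃ U : Set X, IsOpen U ∧ W = dia U}

/-- A class of topological spaces (objects of a full subcategory). -/
abbrev SpaceClass : Type (u + 1) := ∀ (X : Type u) [TopologicalSpace X], Prop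

/-- The irreducible closed subsets of `X`. -/
def IrrC (X : Type u) [TopologicalSpace X] : Set (Set X) := {A | IsClosed A ∧ IsIrreducible A}

/-- A `T₀` space is sober if every irreducible closed set is the closure of exactly one point. -/
def Sober (X : Type u) [TopologicalSpace X] : Prop :=
  T0Space X ∧ ∀ F ∈ IrrC X, ∃! x : X, F = closure {x}

/-- `K` is (the class of objects of) a full subcategory of the category of `T₀` spaces which
contains all sober spaces; we moreover ask that it be closed under homeomorphic copies. -/
structure FullSubcategory (K : SpaceClass.{u}) : Prop where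
  t0 : ∀ (X : Type u) [TopologicalSpace X], K X → T0Space X
  sober : ∀ (X : Type u) [TopologicalSpace X], Sober X → K X
  homeo : ∀ (X Y : Type u) [TopologicalSpace X] [TopologicalSpace Y], Nonempty (X ≃ₜ Y) →
    K X → K Y

/-- `A ⊆ X` is `K`-determined. -/
def DetSet (K : SpaceClass.{u}) {X : Type u} [TopologicalSpace X] (A : Set X) : Prop :=
  ∀ (Y : Type u) [TopologicalSpace Y], K Y → ∀ f : X → Y, Continuous f →
    ∃! y : Y, closure (f '' A) = closure {y}

/-- `K(X)`: the set of all closed `K`-determined subsets of `X`. -/
def detSets (K : SpaceClass.{u}) (X : Type u) [TopologicalSpace X] : Set (Set X) :=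
  {A | IsClosed A ∧ DetSet K A}

/-- `X` is `K`-determined if `Irr_c(X) = K(X)`. -/
def DetSpace (K : SpaceClass.{u}) (X : Type u) [TopologicalSpace X] : Prop :=
  IrrC X = detSets K X

/-- `K` is adequate if `P_H(K(X))` is a `K`-space for every `T₀` space `X`. -/
def Adequate (K : SpaceClass.{u}) : Prop :=
  ∀ (X : Type u) [TopologicalSpace X], T0Space X → K (PH (detSets K X))

/-- `K` is a Smyth category if `P_S(X)` is a `K`-space whenever `X` is. -/
def SmythCategory (K : SpaceClass.{u}) : Prop :=
  ∀ (X : Type u) [TopologicalSpace X], K X → K (PS X)

end Pool.Agent.Lib.MP_360cb4_gt
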