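import Pool.Agent.Lib.MP_360cb4_gt.Defs

section

set_option autoImplicit false

universe u v

namespace Pool.Agent.Lib.MP_360cb4_gt

open Set

section Sat

variable {X : Type u} [TopologicalSpace X]

/-- `x ∈ closure {y}` in terms of open sets. -/
theorem mem_cl_iff {x y : X} : x ∈ closure ({y} : Set X) ↔ ∀ U : Set X, IsOpen U → x ∈ U → y ∈ U := by
  rw [mem_closure_iff]
  constructor
  · intro h U hU hx
    obtain ⟨z, hz, hz'⟩ := h U hU hx
    rw [mem_singleton_iff] at hz'
    exact hz' ▸ hz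
  · intro h U hU hx
    exact ⟨y, h U hU hx, rfl⟩

theorem mem_of_cl {U : Set X} (hU : IsOpen U) {x y : X} (h : x ∈ closure ({y} : Set X))
    (hx : x ∈ U) : y ∈ U := mem_cl_iff.1 h U hU hx

/-- The saturation of a set. -/
def sat (A : Set X) : Set X := {y | ∃ x ∈ A, x ∈ closure ({y} : Set X)}

theorem subset_sat (A : Set X) : A ⊆ sat A := fun x hx => ⟨x, hx, subset_closure rfl⟩

theorem cl_trans {x y z : X} (h1 : x ∈ closure ({y} : Set X)) (h2 : y ∈ closure ({z} : Set X)) :
    x ∈ closure ({z} : Set X) :=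
  mem_cl_iff.2 fun _ hU hx => mem_of_cl hU h2 (mem_of_cl hU h1 hx)

theorem saturated_sat (A : Set X) : Saturated (sat A) := by
  rintro x ⟨a, ha, hax⟩ y hxy
  exact ⟨a, ha, cl_trans hax hxy⟩

theorem sat_subset_iff {A U : Set X} (hU : IsOpen U) : sat A ⊆ U ↔ A ⊆ U :=
  ⟨fun h => (subset_sat A).trans h, fun h _ ⟨_, hx, hxy⟩ => mem_of_cl hU hxy (h hx)⟩

theorem sat_mono {A B : Set X} (h : A ⊆ B) : sat A ⊆ sat B := fun _ ⟨x, hx, hxy⟩ => ⟨x, h hx, hxy⟩

theorem isCompact_sat {A : Set X} (hA : IsCompact A) : IsCompact (sat A) := by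
  refine isCompact_of_finite_subcover fun {ι} U hU hAU => ?_
  obtain ⟨t, ht⟩ := hA.elim_finite_subcover U hU ((subset_sat A).trans hAU)
  exact ⟨t, (sat_subset_iff (isOpen_biUnion fun i _ => hU i)).2 ht⟩

theorem Saturated.mem_of_forall_open {A : Set X} (hA : Saturated A) {x : X}
    (h : ∀ U : Set X, IsOpen U → A ⊆ U → x ∈ U) : x ∈ A := by
  by_contra hx
  have := h (closure ({x} : Set X))ᶜ isClosed_closure.isOpen_compl (by
    intro a ha ha'
    exact hx (hA a ha x ha'))
  exact this (subset_closure rfl)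

/-- For an open set `V`, `closure A` meets `V` iff `A` does. -/
theorem closure_inter_open_nonempty {A V : Set X} (hV : IsOpen V) :
    (closure A ∩ V).Nonempty ↔ (A ∩ V).Nonempty :=
  closure_inter_open_nonempty_iff hV

theorem mem_open_iff_of_closure_eq {A V : Set X} (hV : IsOpen V) {y : X}
    (h : closure A = closure {y}) : y ∈ V ↔ (A ∩ V).Nonempty := by
  rw [← closure_inter_open_nonempty hV, h, closure_inter_open_nonempty hV, singleton_inter_nonempty]

end Sat

section Rudin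

variable {ι : Type v} [LinearOrder ι] [Nonempty ι] {W : Type u} [TopologicalSpace W]

/-- Rudin's lemma: existence of minimal closed sets meeting all members of a family. -/
theorem rudin {D : ι → Set W} (hD : ∀ a, IsCompact (D a)) {C : Set W}
    (hC : IsClosed C) (hCD : ∀ a, (D a ∩ C).Nonempty) :
    ∃ C₀ ⊆ C, IsClosed C₀ ∧ (∀ a, (D a ∩ C₀).Nonempty) ∧
      ∀ C' ⊆ C₀, IsClosed C' → (∀ a, (D a ∩ C').Nonempty) → C' = C₀ := by
  let S : Set (Set W) := {F | IsClosed F ∧ ∀ a, (D a ∩ F).Nonempty}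
  obtain ⟨C₀, hC₀C, hmin⟩ := zorn_superset_nonempty S (by
    intro c hcS hc hcne
    refine ⟨⋂₀ c, ⟨isClosed_sInter fun F hF => (hcS hF).1, fun a => ?_⟩,
      fun F hF => sInter_subset_of_mem hF⟩
    have : Nonempty c := hcne.to_subtype
    by_contra hne
    rw [not_nonempty_iff_eq_empty, sInter_eq_iInter] at hne
    obtain ⟨F, hF⟩ := (hD a).elim_directed_family_closed (fun F : c => (F : Set W))
      (fun F => (hcS F.2).1) hne (by
        intro F G
        rcases hc.total F.2 G.2 with h | h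
        · exact ⟨F, subset_rfl, h⟩
        · exact ⟨G, h, subset_rfl⟩)
    exact ((hcS F.2).2 a).ne_empty hF) C ⟨hC, hCD⟩
  refine ⟨C₀, hC₀C, hmin.prop.1, hmin.prop.2, fun C' hC' hcl h => ?_⟩
  exact subset_antisymm hC' (hmin.le_of_le ⟨hcl, h⟩ hC')

/-- A minimal closed set meeting all members of an antitone chain of sets is irreducible. -/
theorem rudin_irred {D : ι → Set W} (hanti : Antitone D) {C₀ : Set W} (hC₀ : IsClosed C₀)
    (hmeet : ∀ a, (D a ∩ C₀).Nonempty)
    (hmin : ∀ C' ⊆ C₀, IsClosed C' → (∀ a, (D a ∩ C').Nonempty) → C' = C₀) :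
    IsIrreducible C₀ := by
  refine ⟨(hmeet (Classical.arbitrary ι)).mono inter_subset_right, ?_⟩
  rw [isPreirreducible_iff_isClosed_union_isClosed]
  intro F G hF hG hFG
  by_contra hcon
  rw [not_or] at hcon
  have h1 : ∃ a, ¬ (D a ∩ (C₀ ∩ F)).Nonempty := by
    by_contra h
    push Not at h
    have := hmin (C₀ ∩ F) inter_subset_left (hC₀.inter hF) h
    exact hcon.1 (this ▸ inter_subset_right)
  have h2 : ∃ a, ¬ (D a ∩ (C₀ ∩ G)).Nonempty := by
    by_contra h
    push Not at h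
    have := hmin (C₀ ∩ G) inter_subset_left (hC₀.inter hG) h
    exact hcon.2 (this ▸ inter_subset_right)
  obtain ⟨a, ha⟩ := h1
  obtain ⟨b, hb⟩ := h2
  obtain ⟨x, hx, hxC⟩ := hmeet (max a b)
  rcases hFG hxC with hxF | hxG
  · exact ha ⟨x, hanti (le_max_left a b) hx, hxC, hxF⟩
  · exact hb ⟨x, hanti (le_max_right a b) hx, hxC, hxG⟩

/-- If `C₀` is minimal and `V` is open and meets `C₀`, then some `D a ∩ C₀` is inside `V`. -/
theorem rudin_open {D : ι → Set W} {C₀ : Set W} (hC₀ : IsClosed C₀)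
    (hmin : ∀ C' ⊆ C₀, IsClosed C' → (∀ a, (D a ∩ C').Nonempty) → C' = C₀)
    {V : Set W} (hV : IsOpen V) (hne : (C₀ ∩ V).Nonempty) : ∃ a, D a ∩ C₀ ⊆ V := by
  by_contra h
  push Not at h
  have := hmin (C₀ \ V) sdiff_subset (hC₀.sdiff hV) (by
    intro a
    obtain ⟨x, hx, hxV⟩ := not_subset.1 (h a)
    exact ⟨x, hx.1, hx.2, hxV⟩)
  obtain ⟨x, hx, hxV⟩ := hne
  rw [← this] at hx
  exact hx.2 hxV

end Rudin

/-- Well-filteredness with respect to decreasing families indexed by `ι`. -/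
def ChainWF (ι : Type v) [LinearOrder ι] (Y : Type u) [TopologicalSpace Y] : Prop :=
  ∀ D : ι → Set Y, (∀ a, (D a).Nonempty) → (∀ a, IsCompact (D a)) → (∀ a, Saturated (D a)) →
    Antitone D → ∀ U : Set Y, IsOpen U → (⋂ a, D a) ⊆ U → ∃ a, D a ⊆ U

section Chain

variable {ι : Type v} [LinearOrder ι] [Nonempty ι]

theorem ChainWF.of_sober {Y : Type u} [TopologicalSpace Y] (hY : Sober Y) : ChainWF ι Y := by
  intro D hne hcomp hsat hanti U hU hDU
  by_contra hcon
  push Not at hcon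
  obtain ⟨C₀, hC₀U, hcl, hmeet, hmin⟩ := rudin hcomp hU.isClosed_compl (by
    intro a
    obtain ⟨x, hx, hxU⟩ := not_subset.1 (hcon a)
    exact ⟨x, hx, hxU⟩)
  have hirr := rudin_irred hanti hcl hmeet hmin
  obtain ⟨y, hy, -⟩ := hY.2 C₀ ⟨hcl, hirr⟩
  have hyC : y ∈ C₀ := hy ▸ subset_closure rfl
  refine hC₀U hyC (hDU (mem_iInter.2 fun a => ?_))
  obtain ⟨x, hx, hxC⟩ := hmeet a
  exact hsat a x hx y (hy ▸ hxC)

/-- The intersection of a chain in a `ChainWF` space. -/
theorem ChainWF.inter {Y : Type u} [TopologicalSpace Y] (hY : ChainWF ι Y) {D : ι → Set Y}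
    (hne : ∀ a, (D a).Nonempty) (hcomp : ∀ a, IsCompact (D a)) (hsat : ∀ a, Saturated (D a))
    (hanti : Antitone D) :
    (⋂ a, D a).Nonempty ∧ IsCompact (⋂ a, D a) ∧ Saturated (⋂ a, D a) := by
  refine ⟨?_, ?_, ?_⟩
  · by_contra h
    rw [not_nonempty_iff_eq_empty] at h
    obtain ⟨a, ha⟩ := hY D hne hcomp hsat hanti ∅ isOpen_empty h.subset
    exact (hne a).ne_empty (subset_empty_iff.1 ha)
  · refine isCompact_of_finite_subcover fun {κ} U hU hDU => ?_
    obtain ⟨a, ha⟩ := hY D hne hcomp hsat hanti (⋃ i, U i) (isOpen_iUnion hU) hDU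
    obtain ⟨t, ht⟩ := (hcomp a).elim_finite_subcover U hU ha
    exact ⟨t, (iInter_subset D a).trans ht⟩
  · intro x hx y hxy
    exact mem_iInter.2 fun a => hsat a x (mem_iInter.1 hx a) y hxy

/-- Finite spaces have the property. -/
theorem ChainWF.of_finite {Y : Type u} [TopologicalSpace Y] [Finite Y] : ChainWF ι Y := by
  intro D hne hcomp hsat hanti U hU hDU
  have : ∀ y : Y, ∃ a, y ∉ U → y ∉ D a := by
    intro y
    by_cases hy : y ∈ U
    · exact ⟨Classical.arbitrary ι, fun h => absurd hy h⟩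
    · have : y ∉ ⋂ a, D a := fun h => hy (hDU h)
      rw [mem_iInter] at this
      push Not at this
      obtain ⟨a, ha⟩ := this
      exact ⟨a, fun _ => ha⟩
  choose f hf using this
  obtain ⟨b, hb⟩ := (finite_range f).bddAbove
  refine ⟨b, fun y hy => ?_⟩
  by_contra hyU
  exact hf y hyU (hanti (hb (mem_range_self y)) hy)

end Chain

end Pool.Agent.Lib.MP_360cb4_gt
end

section

set_option autoImplicit false

universe u v

namespace Pool.Agent.Lib.MP_360cb4_gt

open Set

section PSbasic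

variable {X : Type u} [TopologicalSpace X]

theorem isOpen_box {U : Set X} (hU : IsOpen U) : IsOpen (box U) :=
  TopologicalSpace.isOpen_generateFrom_of_mem ⟨U, hU, rfl⟩

theorem exists_box {O : Set (PS X)} (hO : IsOpen O) {K : PS X} (hK : K ∈ O) :
    ∃ U : Set X, IsOpen U ∧ K.1 ⊆ U ∧ box U ⊆ O := by
  induction hO generalizing K with
  | basic s hs =>
    obtain ⟨U, hU, rfl⟩ := hs
    exact ⟨U, hU, hK, subset_rfl⟩
  | univ => exact ⟨univ, isOpen_univ, subset_univ _, subset_univ _⟩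
  | inter s t _ _ ihs iht =>
    obtain ⟨U, hU, hKU, hUs⟩ := ihs hK.1
    obtain ⟨V, hV, hKV, hVt⟩ := iht hK.2
    exact ⟨U ∩ V, hU.inter hV, subset_inter hKU hKV, fun L hL =>
      ⟨hUs (hL.trans inter_subset_left), hVt (hL.trans inter_subset_right)⟩⟩
  | sUnion S _ ih =>
    obtain ⟨s, hs, hKs⟩ := hK
    obtain ⟨U, hU, hKU, hUs⟩ := ih s hs hKs
    exact ⟨U, hU, hKU, hUs.trans (subset_sUnion_of_mem hs)⟩

theorem PS.t0 : T0Space (PS X) := by
  rw [t0Space_iff_exists_isOpen_xor_mem]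
  intro K L hKL
  have hne : K.1 ≠ L.1 := fun h => hKL (Subtype.ext h)
  have key : ∀ K L : PS X, (¬ K.1 ⊆ L.1) → ∃ U : Set (PS X), IsOpen U ∧ L ∈ U ∧ K ∉ U := by
    intro K L h
    obtain ⟨x, hxK, hxL⟩ := not_subset.1 h
    refine ⟨box (closure ({x} : Set X))ᶜ, isOpen_box isClosed_closure.isOpen_compl, ?_, ?_⟩
    · intro a ha ha'
      exact hxL (L.2.2.2 a ha x ha')
    · intro h'
      exact h' hxK (subset_closure rfl)
  by_cases h : K.1 ⊆ L.1
  · have h' : ¬ L.1 ⊆ K.1 := fun h' => hne (h.antisymm h')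
    obtain ⟨U, hU, h1, h2⟩ := key L K h'
    exact ⟨U, hU, Or.inl ⟨h1, h2⟩⟩
  · obtain ⟨U, hU, h1, h2⟩ := key K L h
    exact ⟨U, hU, Or.inr ⟨h1, h2⟩⟩

end PSbasic

section PHbasic

variable {X : Type u} [TopologicalSpace X] {G : Set (Set X)}

theorem isOpen_dia {U : Set X} (hU : IsOpen U) : IsOpen (dia U : Set (PH G)) :=
  TopologicalSpace.isOpen_generateFrom_of_mem ⟨U, hU, rfl⟩

/-- For a family of irreducible sets the open sets of `P_H(G)` are exactly the sets `dia U`. -/
theorem isOpen_PH_iff (hG : ∀ A ∈ G, IsIrreducible A) {O : Set (PH G)} :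
    IsOpen O ↔ ∃ U : Set X, IsOpen U ∧ O = dia U := by
  constructor
  · intro hO
    induction hO with
    | basic s hs => exact hs
    | univ =>
      refine ⟨univ, isOpen_univ, (eq_univ_of_forall fun A => ?_).symm⟩
      exact ⟨_, (hG A.1 A.2).1.some_mem, mem_univ _⟩
    | inter s t _ _ ihs iht =>
      obtain ⟨U, hU, rfl⟩ := ihs
      obtain ⟨V, hV, rfl⟩ := iht
      refine ⟨U ∩ V, hU.inter hV, ?_⟩
      ext A
      constructor
      · rintro ⟨h1, h2⟩
        exact (hG A.1 A.2).2 U V hU hV h1 h2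
      · rintro ⟨x, hx, hxU, hxV⟩
        exact ⟨⟨x, hx, hxU⟩, ⟨x, hx, hxV⟩⟩
    | sUnion S _ ih =>
      refine ⟨⋃₀ {U | IsOpen U ∧ dia U ∈ S}, isOpen_sUnion fun U hU => hU.1, ?_⟩
      ext A
      constructor
      · rintro ⟨s, hs, hA⟩
        obtain ⟨U, hU, rfl⟩ := ih s hs
        obtain ⟨x, hx, hxU⟩ := hA
        exact ⟨x, hx, U, ⟨hU, hs⟩, hxU⟩
      · rintro ⟨x, hx, U, ⟨_, hUS⟩, hxU⟩
        exact ⟨dia U, hUS, x, hx, hxU⟩
  · rintro ⟨U, hU, rfl⟩
    exact isOpen_dia hU

theorem PH.t0 (hG : ∀ A ∈ G, IsClosed A) : T0Space (PH G) := by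
  rw [t0Space_iff_exists_isOpen_xor_mem]
  intro A B hAB
  have hne : A.1 ≠ B.1 := fun h => hAB (Subtype.ext h)
  have key : ∀ A B : PH G, (¬ A.1 ⊆ B.1) → ∃ U : Set (PH G), IsOpen U ∧ A ∈ U ∧ B ∉ U := by
    intro A B h
    obtain ⟨x, hxA, hxB⟩ := not_subset.1 h
    refine ⟨dia (B.1)ᶜ, isOpen_dia (hG B.1 B.2).isOpen_compl, ⟨x, hxA, hxB⟩, ?_⟩
    rintro ⟨y, hy, hy'⟩
    exact hy' hy
  by_cases h : A.1 ⊆ B.1
  · have h' : ¬ B.1 ⊆ A.1 := fun h' => hne (h.antisymm h')
    obtain ⟨U, hU, h1, h2⟩ := key B A h'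
    exact ⟨U, hU, Or.inr ⟨h1, h2⟩⟩
  · obtain ⟨U, hU, h1, h2⟩ := key A B h
    exact ⟨U, hU, Or.inl ⟨h1, h2⟩⟩

end PHbasic

section Smyth

variable {ι : Type v} [LinearOrder ι] [Nonempty ι]

/-- The union of a compact set of members of `P_S(Y)` is compact. -/
theorem isCompact_union {Y : Type u} [TopologicalSpace Y] {D : Set (PS Y)} (hD : IsCompact D) :
    IsCompact (⋃ K ∈ D, (K : PS Y).1) := by
  refine isCompact_of_finite_subcover fun {κ} U hU hDU => ?_
  obtain ⟨T, hT⟩ := hD.elim_directed_cover (fun T : Finset κ => box (⋃ i ∈ T, U i))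
    (fun T => isOpen_box (isOpen_biUnion fun i _ => hU i)) (by
      intro K hK
      obtain ⟨T, hT⟩ := K.2.2.1.elim_finite_subcover U hU
        ((subset_biUnion_of_mem (u := fun K : PS Y => K.1) hK).trans hDU)
      exact mem_iUnion.2 ⟨T, hT⟩) (by
      intro S T
      classical
      refine ⟨S ∪ T, fun K hK => ?_, fun K hK => ?_⟩
      · exact hK.trans (biUnion_subset_biUnion_left fun i hi => Finset.mem_union_left T hi)
      · exact hK.trans (biUnion_subset_biUnion_left fun i hi => Finset.mem_union_right S hi))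
  exact ⟨T, iUnion₂_subset fun K hK => hT hK⟩

theorem ChainWF.smyth {Y : Type u} [TopologicalSpace Y] (hY : ChainWF ι Y) :
    ChainWF ι (PS Y) := by
  intro D hne hcomp hsat hanti O hO hDO
  by_contra hcon
  push Not at hcon
  obtain ⟨C₀, hC₀O, hcl, hmeet, hmin⟩ := rudin hcomp hO.isClosed_compl (by
    intro a
    obtain ⟨x, hx, hxU⟩ := not_subset.1 (hcon a)
    exact ⟨x, hx, hxU⟩)
  let f : ι → Set Y := fun a => ⋃ K ∈ D a ∩ C₀, (K : PS Y).1
  have fsub : ∀ (a : ι) (V : Set Y), f a ⊆ V ↔ D a ∩ C₀ ⊆ box V := by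
    intro a V
    constructor
    · intro h K hK
      exact (subset_biUnion_of_mem (u := fun K : PS Y => K.1) hK).trans h
    · intro h
      exact iUnion₂_subset fun K hK => h hK
  have fne : ∀ a, (f a).Nonempty := by
    intro a
    obtain ⟨K, hK⟩ := hmeet a
    obtain ⟨x, hx⟩ := K.2.1
    exact ⟨x, mem_biUnion (t := fun K : PS Y => K.1) hK hx⟩
  have fcomp : ∀ a, IsCompact (f a) := fun a => isCompact_union ((hcomp a).inter_right hcl)
  have fsat : ∀ a, Saturated (f a) := by
    intro a x hx y hxy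
    obtain ⟨K, hK, hxK⟩ := mem_iUnion₂.1 hx
    exact mem_biUnion (t := fun K : PS Y => K.1) hK (K.2.2.2 x hxK y hxy)
  have fanti : Antitone f := by
    intro a b hab
    exact biUnion_subset_biUnion_left (inter_subset_inter_left _ (hanti hab))
  obtain ⟨Qne, Qcomp, Qsat⟩ := hY.inter fne fcomp fsat fanti
  let Q : PS Y := ⟨⋂ a, f a, Qne, Qcomp, Qsat⟩
  have hQ : ∀ V : Set Y, IsOpen V → Q.1 ⊆ V → ∃ a, f a ⊆ V := fun V hV h =>
    hY f fne fcomp fsat fanti V hV h
  have hQC : Q ∈ C₀ := by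
    by_contra h
    obtain ⟨V, hV, hQV, hVC⟩ := exists_box hcl.isOpen_compl h
    obtain ⟨a, ha⟩ := hQ V hV hQV
    obtain ⟨K, hK⟩ := hmeet a
    exact hVC ((fsub a V).1 ha hK) hK.2
  have hQD : ∀ a, Q ∈ D a := by
    intro a
    refine (hsat a).mem_of_forall_open fun P hP hDP => ?_
    obtain ⟨K, hKD, hKC⟩ := hmeet a
    obtain ⟨V, hV, hKV, hVP⟩ := exists_box hP (hDP hKD)
    obtain ⟨b, hb⟩ := rudin_open hcl hmin (isOpen_box hV) ⟨K, hKC, hKV⟩
    exact hVP ((iInter_subset f b).trans ((fsub b V).2 hb))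
  exact hC₀O hQC (hDO (mem_iInter.2 hQD))

end Smyth

section Adequate

variable {ι : Type v} [LinearOrder ι] [Nonempty ι]

/-- The chain well-filtered space axiom passes to `P_H(K(X))`. -/
theorem ChainWF.adequate {K : SpaceClass.{u}}
    (hK0 : ∀ (Y : Type u) [TopologicalSpace Y], K Y → T0Space Y)
    (hK : ∀ (Y : Type u) [TopologicalSpace Y], K Y → ChainWF ι Y)
    (X : Type u) [TopologicalSpace X] (hirr : ∀ A ∈ detSets K X, IsIrreducible A) :
    ChainWF ι (PH (detSets K X)) := by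
  intro D hne hcomp hsat hanti O hO hDO
  by_contra hcon
  push Not at hcon
  obtain ⟨C₀, hC₀O, hcl, hmeet, hmin⟩ := rudin hcomp hO.isClosed_compl (by
    intro a
    obtain ⟨x, hx, hxU⟩ := not_subset.1 (hcon a)
    exact ⟨x, hx, hxU⟩)
  -- `C₀` is the set of members contained in a closed set
  obtain ⟨V, hV, hCV⟩ := (isOpen_PH_iff hirr).1 hcl.isOpen_compl
  have memC : ∀ A : PH (detSets K X), A ∈ C₀ ↔ ¬ (A.1 ∩ V).Nonempty := by
    intro A
    have : A ∈ C₀ᶜ ↔ A ∈ (dia V : Set (PH (detSets K X))) := by rw [hCV]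
    rw [mem_compl_iff] at this
    exact ⟨fun h h' => (this.2 h') h, fun h => by by_contra h'; exact h (this.1 h')⟩
  let F : Set X := closure (⋃ A ∈ C₀, (A : PH (detSets K X)).1)
  have subF : ∀ A ∈ C₀, (A : PH (detSets K X)).1 ⊆ F := fun A hA =>
    (subset_biUnion_of_mem (u := fun A : PH (detSets K X) => A.1) hA).trans subset_closure
  have hFV : F ⊆ Vᶜ := by
    refine closure_minimal ?_ hV.isClosed_compl
    refine iUnion₂_subset fun A hA x hx hxV => ?_
    exact (memC A).1 hA ⟨x, hx, hxV⟩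
  -- an open set meeting `F` meets a member of `C₀`
  have meetF : ∀ U : Set X, IsOpen U → (F ∩ U).Nonempty → (C₀ ∩ dia U).Nonempty := by
    intro U hU h
    obtain ⟨x, hx, hxU⟩ := (closure_inter_open_nonempty hU).1 h
    obtain ⟨A, hA, hxA⟩ := mem_iUnion₂.1 hx
    exact ⟨A, hA, x, hxA, hxU⟩
  have hFdet : DetSet K F := by
    intro Y _ hKY g hg
    have := hK0 Y hKY
    have hex : ∀ A : PH (detSets K X), ∃ y : Y, closure (g '' A.1) = closure {y} := fun A =>
      (A.2.2 Y hKY g hg).exists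
    choose gk hgk using hex
    have gk_mem : ∀ (A : PH (detSets K X)) (U : Set Y), IsOpen U →
        (gk A ∈ U ↔ A ∈ (dia (g ⁻¹' U) : Set (PH (detSets K X)))) := by
      intro A U hU
      rw [mem_open_iff_of_closure_eq hU (hgk A), image_inter_nonempty_iff]
      rfl
    have hgkc : Continuous gk := by
      rw [continuous_def]
      intro U hU
      have : gk ⁻¹' U = dia (g ⁻¹' U) := by
        ext A
        exact gk_mem A U hU
      rw [this]
      exact isOpen_dia (hU.preimage hg)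
    let f : ι → Set Y := fun a => sat (gk '' (D a ∩ C₀))
    have fne : ∀ a, (f a).Nonempty := fun a =>
      ((hmeet a).image gk).mono (subset_sat _)
    have fcomp : ∀ a, IsCompact (f a) := fun a =>
      isCompact_sat (((hcomp a).inter_right hcl).image hgkc)
    have fsat : ∀ a, Saturated (f a) := fun a => saturated_sat _
    have fanti : Antitone f := fun a b hab =>
      sat_mono (image_mono (inter_subset_inter_left _ (hanti hab)))
    have hWF := hK Y hKY
    have hQ : ∀ V : Set Y, IsOpen V → (⋂ a, f a) ⊆ V → ∃ a, f a ⊆ V := fun V hV h =>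
      hWF f fne fcomp fsat fanti V hV h
    -- `Q` meets the closure of `g '' F`
    have hmeetQ : ((⋂ a, f a) ∩ closure (g '' F)).Nonempty := by
      by_contra h
      obtain ⟨a, ha⟩ := hQ (closure (g '' F))ᶜ isClosed_closure.isOpen_compl (by
        intro y hy hy'
        exact h ⟨y, hy, hy'⟩)
      obtain ⟨A, hAD, hAC⟩ := hmeet a
      have h1 : gk A ∈ f a := subset_sat _ ⟨A, ⟨hAD, hAC⟩, rfl⟩
      refine ha h1 ?_
      have h2 : gk A ∈ closure (g '' A.1) := by rw [hgk A]; exact subset_closure rfl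
      exact closure_mono (image_mono (subF A hAC)) h2
    obtain ⟨y, hyQ, hyF⟩ := hmeetQ
    refine ⟨y, ?_, fun z hz => ?_⟩
    · apply subset_antisymm
      · refine closure_minimal ?_ isClosed_closure
        rintro _ ⟨x, hx, rfl⟩
        rw [mem_cl_iff]
        intro U hU hxU
        obtain ⟨a, ha⟩ := rudin_open hcl hmin (isOpen_dia (hU.preimage hg))
          (meetF (g ⁻¹' U) (hU.preimage hg) ⟨x, hx, hxU⟩)
        have : f a ⊆ U := by
          rw [sat_subset_iff hU]
          rintro _ ⟨A, hA, rfl⟩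
          exact (gk_mem A U hU).2 (ha hA)
        exact this (mem_iInter.1 hyQ a)
      · exact closure_minimal (singleton_subset_iff.2 hyF) isClosed_closure
    · -- uniqueness
      have hz' : closure (g '' F) = closure {y} := by
        apply subset_antisymm
        · refine closure_minimal ?_ isClosed_closure
          rintro _ ⟨x, hx, rfl⟩
          rw [mem_cl_iff]
          intro U hU hxU
          obtain ⟨a, ha⟩ := rudin_open hcl hmin (isOpen_dia (hU.preimage hg))
            (meetF (g ⁻¹' U) (hU.preimage hg) ⟨x, hx, hxU⟩)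
          have : f a ⊆ U := by
            rw [sat_subset_iff hU]
            rintro _ ⟨A, hA, rfl⟩
            exact (gk_mem A U hU).2 (ha hA)
          exact this (mem_iInter.1 hyQ a)
        · exact closure_minimal (singleton_subset_iff.2 hyF) isClosed_closure
      exact (t0Space_iff_inseparable Y).1 inferInstance z y
        (inseparable_iff_closure_eq.2 (hz.symm.trans hz'))
  let FW : PH (detSets K X) := ⟨F, isClosed_closure, hFdet⟩
  have hFC : FW ∈ C₀ := by
    rw [memC]
    rintro ⟨x, hx, hxV⟩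
    exact hFV hx hxV
  have hFD : ∀ a, FW ∈ D a := by
    intro a
    refine (hsat a).mem_of_forall_open fun P hP hDP => ?_
    obtain ⟨U, hU, rfl⟩ := (isOpen_PH_iff hirr).1 hP
    obtain ⟨A, hAD, hAC⟩ := hmeet a
    obtain ⟨x, hx, hxU⟩ := hDP hAD
    exact ⟨x, subF A hAC hx, hxU⟩
  exact hC₀O hFC (hDO (mem_iInter.2 hFD))

end Adequate

end Pool.Agent.Lib.MP_360cb4_gt
end

section

set_option autoImplicit false

universe u

namespace Pool.Agent.Lib.MP_360cb4_gt

open Set

section Card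

open Cardinal Ordinal

/-- The well-order of type `ω_{m+1}`. -/
abbrev L (m : ℕ) : Type u := (Ordinal.omega.{u} ((m : Ordinal.{u}) + 1)).ToType

theorem card_L (m : ℕ) : #(L.{u} m) = ℵ_ ((m : Ordinal.{u}) + 1) := by
  rw [Cardinal.mk_toType, card_omega]

theorem cof_L (m : ℕ) : Order.cof (L.{u} m) = ℵ_ ((m : Ordinal.{u}) + 1) := by
  rw [cof_toType, cof_omega_add_one]

theorem aleph_lt {m n : ℕ} (h : m < n) :
    ℵ_ ((m : Ordinal.{u}) + 1) < ℵ_ ((n : Ordinal.{u}) + 1) := by
  rw [aleph_lt_aleph]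
  exact_mod_cast Nat.succ_lt_succ h

theorem L_bdd {m : ℕ} {s : Set (L.{u} m)} (hs : #s < ℵ_ ((m : Ordinal.{u}) + 1)) :
    ∃ b : L.{u} m, ∀ a ∈ s, a < b := by
  have h : ¬ IsCofinal s := by
    intro h
    have := Order.cof_le h
    rw [cof_L] at this
    exact absurd hs (not_lt.2 this)
  unfold IsCofinal at h
  push Not at h
  exact h

theorem L_bdd_range {m : ℕ} {ι : Type u} (f : ι → L.{u} m) (h : #ι < ℵ_ ((m : Ordinal.{u}) + 1)) :
    ∃ b : L.{u} m, ∀ i, f i < b := by
  obtain ⟨b, hb⟩ := L_bdd (s := range f) (lt_of_le_of_lt mk_range_le h)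
  exact ⟨b, fun i => hb _ (mem_range_self i)⟩

theorem L_bdd_nat {m : ℕ} (f : ℕ → L.{u} m) : ∃ b : L.{u} m, ∀ i, f i < b := by
  have h0 : ℵ₀ < ℵ_ ((m : Ordinal.{u}) + 1) := by
    rw [← aleph_zero, aleph_lt_aleph]
    exact_mod_cast Nat.succ_pos m
  obtain ⟨b, hb⟩ := L_bdd (s := range f) (lt_of_le_of_lt ((countable_range f).le_aleph0) h0)
  exact ⟨b, fun i => hb _ (mem_range_self i)⟩

theorem L_noMax {m : ℕ} (a : L.{u} m) : ∃ b : L.{u} m, a < b := by
  obtain ⟨b, hb⟩ := L_bdd_nat (fun _ => a)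
  exact ⟨b, hb 0⟩

instance (m : ℕ) : Nonempty (L.{u} m) := by
  rw [← mk_ne_zero_iff, card_L]
  exact (aleph_pos _).ne'

end Card

/-- The class of spaces used for the counterexample: `T₀` spaces which are well-filtered with
respect to decreasing families of length `ω_{m+1}`, `m ∈ ℕ`. -/
def KK : SpaceClass.{u} := fun X _ => T0Space X ∧ ∀ m : ℕ, ChainWF (L.{u} m) X

/-- Sets of the form closure of a point are `K`-determined. -/
theorem detSet_closure_singleton {K : SpaceClass.{u}}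
    (hK0 : ∀ (Y : Type u) [TopologicalSpace Y], K Y → T0Space Y)
    {X : Type u} [TopologicalSpace X] (x : X) : DetSet K (closure ({x} : Set X)) := by
  intro Y _ hY f hf
  have := hK0 Y hY
  have h1 : closure (f '' closure ({x} : Set X)) = closure {f x} := by
    apply subset_antisymm
    · refine closure_minimal ?_ isClosed_closure
      rintro _ ⟨z, hz, rfl⟩
      rw [mem_cl_iff]
      intro U hU hzU
      exact mem_of_cl (hU.preimage hf) hz hzU
    · exact closure_mono (singleton_subset_iff.2 ⟨x, subset_closure rfl, rfl⟩)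
  refine ⟨f x, h1, fun z hz => ?_⟩
  exact (t0Space_iff_inseparable Y).1 inferInstance z (f x)
    (inseparable_iff_closure_eq.2 (hz.symm.trans h1))

/-- A `K`-determined set is irreducible, if `K` contains the finite `T₀` spaces. -/
theorem irreducible_of_detSet {K : SpaceClass.{u}}
    (hfin : ∀ (Y : Type u) [TopologicalSpace Y] [Finite Y] [T0Space Y], K Y)
    {X : Type u} [TopologicalSpace X] {A : Set X} (hA : DetSet K A) : IsIrreducible A := by
  have hT0 : T0Space (ULift.{u} (Prop × Prop)) := inferInstance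
  have hF : Finite (ULift.{u} (Prop × Prop)) := inferInstance
  have key : ∀ U V : Set X, IsOpen U → IsOpen V → ∃ y : ULift.{u} (Prop × Prop),
      closure ((fun x => ULift.up (x ∈ U, x ∈ V)) '' A) = closure {y} := by
    intro U V hU hV
    refine (hA (ULift.{u} (Prop × Prop)) (hfin _) _ ?_).exists
    exact continuous_uliftUp.comp ((continuous_Prop.2 hU).prodMk (continuous_Prop.2 hV))
  constructor
  · obtain ⟨y, hy⟩ := key ∅ ∅ isOpen_empty isOpen_empty
    by_contra h
    rw [not_nonempty_iff_eq_empty] at h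
    rw [h, image_empty, closure_empty] at hy
    exact (hy ▸ subset_closure (mem_singleton y) : y ∈ (∅ : Set (ULift.{u} (Prop × Prop))))
  · intro U V hU hV hAU hAV
    obtain ⟨y, hy⟩ := key U V hU hV
    have o1 : IsOpen {z : ULift.{u} (Prop × Prop) | z.down.1} := by
      have : Continuous fun z : ULift.{u} (Prop × Prop) => z.down.1 :=
        continuous_fst.comp continuous_uliftDown
      exact continuous_Prop.1 this
    have o2 : IsOpen {z : ULift.{u} (Prop × Prop) | z.down.2} := by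
      have : Continuous fun z : ULift.{u} (Prop × Prop) => z.down.2 :=
        continuous_snd.comp continuous_uliftDown
      exact continuous_Prop.1 this
    have h1 : y ∈ {z : ULift.{u} (Prop × Prop) | z.down.1} := by
      rw [mem_open_iff_of_closure_eq o1 hy]
      obtain ⟨x, hx, hxU⟩ := hAU
      exact ⟨_, ⟨x, hx, rfl⟩, hxU⟩
    have h2 : y ∈ {z : ULift.{u} (Prop × Prop) | z.down.2} := by
      rw [mem_open_iff_of_closure_eq o2 hy]
      obtain ⟨x, hx, hxU⟩ := hAV
      exact ⟨_, ⟨x, hx, rfl⟩, hxU⟩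
    obtain ⟨_, ⟨x, hx, rfl⟩, hx1, hx2⟩ :=
      (mem_open_iff_of_closure_eq (o1.inter o2) hy).1 ⟨h1, h2⟩
    exact ⟨x, hx, hx1, hx2⟩

theorem KK_finite (Y : Type u) [TopologicalSpace Y] [Finite Y] [T0Space Y] : KK Y :=
  ⟨inferInstance, fun _ => ChainWF.of_finite⟩

theorem KK_irr {X : Type u} [TopologicalSpace X] : detSets KK X ⊆ IrrC X :=
  fun _ hA => ⟨hA.1, irreducible_of_detSet (fun Y _ _ _ => KK_finite Y) hA.2⟩

theorem ChainWF.homeo {ι : Type u} [LinearOrder ι] {X Y : Type u} [TopologicalSpace X]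
    [TopologicalSpace Y] (e : X ≃ₜ Y) (h : ChainWF ι X) : ChainWF ι Y := by
  intro D hne hcomp hsat hanti U hU hDU
  obtain ⟨a, ha⟩ := h (fun a => e ⁻¹' (D a)) (fun a => (hne a).preimage e.surjective)
    (fun a => e.isCompact_preimage.2 (hcomp a)) (by
      intro a x hx y hxy
      refine hsat a _ hx _ ?_
      rw [mem_cl_iff] at hxy ⊢
      intro V hV hxV
      exact hxy (e ⁻¹' V) (hV.preimage e.continuous) hxV)
    (fun a b hab => preimage_mono (hanti hab)) (e ⁻¹' U) (hU.preimage e.continuous) (by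
      rw [← preimage_iInter]
      exact preimage_mono hDU)
  refine ⟨a, fun y hy => ?_⟩
  have := ha (a := e.symm y) (by simpa using hy)
  simpa using this

theorem KK_full : FullSubcategory KK.{u} where
  t0 _ _ h := h.1
  sober _ _ h := ⟨h.1, fun _ => ChainWF.of_sober h⟩
  homeo X Y _ _ e h := by
    obtain ⟨e⟩ := e
    have := h.1
    exact ⟨e.t0Space, fun m => (h.2 m).homeo e⟩

theorem KK_adequate : Adequate KK.{u} := fun X _ _ =>
  ⟨PH.t0 fun _ hA => hA.1, fun m => ChainWF.adequate (fun _ _ h => h.1) (fun _ _ h => h.2 m) X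
    fun _ hA => (KK_irr hA).2⟩

theorem KK_smyth : SmythCategory KK.{u} := fun _ _ h => ⟨PS.t0, fun m => (h.2 m).smyth⟩

/-! ### The space `X` -/

/-- The space: a point `∞` and disjoint copies of the well-orders `L n`. -/
inductive XX : Type u
  /-- The point at infinity. -/
  | inf : XX
  /-- The point of `XX` given by an element of `L n`. -/
  | pt (n : ℕ) (a : L.{u} n) : XX

theorem XX.cases' (x : XX.{u}) : x = XX.inf ∨ ∃ n a, x = XX.pt n a := by
  rcases x with _ | ⟨n, a⟩
  · exact Or.inl rfl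
  · exact Or.inr ⟨n, a, rfl⟩

theorem XX.pt_inj {n : ℕ} {a b : L.{u} n} (h : XX.pt n a = XX.pt n b) : a = b := by
  injection h

theorem XX.pt_ne {n m : ℕ} {a : L.{u} n} {b : L.{u} m} (h : n ≠ m) : XX.pt n a ≠ XX.pt m b := by
  intro h'
  injection h' with h1 h2
  exact h h1

theorem XX.pt_ne_inf {n : ℕ} {a : L.{u} n} : XX.pt n a ≠ XX.inf := by
  intro h
  injection h

/-- Open subsets of `L n`. -/
def OpL {n : ℕ} (S : Set (L.{u} n)) : Prop := S = univ ∨ ∀ b ∈ S, ∃ a < b, Ioi a ⊆ S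

instance : TopologicalSpace XX.{u} where
  IsOpen U := (∀ n, OpL {a : L.{u} n | XX.pt n a ∈ U}) ∧
    (XX.inf ∈ U → ∃ n₀ : ℕ, ∀ n, n₀ ≤ n → ∀ a : L.{u} n, XX.pt n a ∈ U)
  isOpen_univ := ⟨fun _ => Or.inl rfl, fun _ => ⟨0, fun _ _ _ => trivial⟩⟩
  isOpen_inter U V hU hV := by
    refine ⟨fun n => ?_, fun h => ?_⟩
    · rcases hU.1 n with h1 | h1
      · have : {a : L.{u} n | XX.pt n a ∈ U ∩ V} = {a : L.{u} n | XX.pt n a ∈ V} := by
          ext a
          exact ⟨fun h => h.2, fun h => ⟨(h1 ▸ mem_univ a : a ∈ {a : L.{u} n | XX.pt n a ∈ U}), h⟩⟩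
        rw [this]
        exact hV.1 n
      · rcases hV.1 n with h2 | h2
        · have : {a : L.{u} n | XX.pt n a ∈ U ∩ V} = {a : L.{u} n | XX.pt n a ∈ U} := by
            ext a
            exact ⟨fun h => h.1, fun h =>
              ⟨h, (h2 ▸ mem_univ a : a ∈ {a : L.{u} n | XX.pt n a ∈ V})⟩⟩
          rw [this]
          exact hU.1 n
        · refine Or.inr fun b hb => ?_
          obtain ⟨a, ha, ha'⟩ := h1 b hb.1
          obtain ⟨c, hc, hc'⟩ := h2 b hb.2
          refine ⟨max a c, max_lt ha hc, fun z hz => ?_⟩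
          rw [mem_Ioi, max_lt_iff] at hz
          exact ⟨ha' hz.1, hc' hz.2⟩
    · obtain ⟨n₀, h₀⟩ := hU.2 h.1
      obtain ⟨n₁, h₁⟩ := hV.2 h.2
      exact ⟨max n₀ n₁, fun n hn a => ⟨h₀ n ((le_max_left _ _).trans hn) a,
        h₁ n ((le_max_right _ _).trans hn) a⟩⟩
  isOpen_sUnion S hS := by
    refine ⟨fun n => ?_, fun h => ?_⟩
    · by_cases h : ∃ U ∈ S, {a : L.{u} n | XX.pt n a ∈ U} = univ
      · obtain ⟨U, hU, h⟩ := h
        refine Or.inl (eq_univ_of_forall fun a => ?_)
        exact ⟨U, hU, (h ▸ mem_univ a : a ∈ {a : L.{u} n | XX.pt n a ∈ U})⟩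
      · refine Or.inr fun b ⟨U, hU, hb⟩ => ?_
        rcases (hS U hU).1 n with h1 | h1
        · exact absurd ⟨U, hU, h1⟩ h
        · obtain ⟨a, ha, ha'⟩ := h1 b hb
          exact ⟨a, ha, fun z hz => ⟨U, hU, ha' hz⟩⟩
    · obtain ⟨U, hU, h⟩ := h
      obtain ⟨n₀, h₀⟩ := (hS U hU).2 h
      exact ⟨n₀, fun n hn a => ⟨U, hU, h₀ n hn a⟩⟩

theorem XX.isOpen_iff {U : Set XX.{u}} : IsOpen U ↔ (∀ n, OpL {a : L.{u} n | XX.pt n a ∈ U}) ∧
    (XX.inf ∈ U → ∃ n₀ : ℕ, ∀ n, n₀ ≤ n → ∀ a : L.{u} n, XX.pt n a ∈ U) := Iff.rfl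

theorem XX.upper {U : Set XX.{u}} (hU : IsOpen U) {n : ℕ} {a b : L.{u} n} (hab : a ≤ b)
    (ha : XX.pt n a ∈ U) : XX.pt n b ∈ U := by
  rcases hU.1 n with h | h
  · exact (h ▸ mem_univ b : b ∈ {a : L.{u} n | XX.pt n a ∈ U})
  · obtain ⟨c, hc, hc'⟩ := h a ha
    exact hc' (lt_of_lt_of_le hc hab)

theorem XX.mem_cl {n : ℕ} {a b : L.{u} n} (hab : a ≤ b) :
    XX.pt n a ∈ closure ({XX.pt n b} : Set XX.{u}) :=
  mem_cl_iff.2 fun _ hU h => XX.upper hU hab h

/-- The complement of an initial segment of the `n`-th piece. -/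
def XX.up (n : ℕ) (b : L.{u} n) : Set XX.{u} := {x | ∀ a ≤ b, x ≠ XX.pt n a}

theorem XX.isOpen_up (n : ℕ) (b : L.{u} n) : IsOpen (XX.up n b) := by
  refine ⟨fun k => ?_, fun _ => ⟨n + 1, fun k hk a c _ => XX.pt_ne (by omega)⟩⟩
  rcases eq_or_ne k n with rfl | h
  · refine Or.inr fun c hc => ⟨b, ?_, fun z hz a hab h => ?_⟩
    · by_contra h
      exact hc c (not_lt.1 h) rfl
    · rw [XX.pt_inj h] at hz
      exact absurd hab (not_le.2 hz)
  · refine Or.inl (eq_univ_of_forall fun a c _ => XX.pt_ne h)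

theorem XX.mem_up {n : ℕ} {a b : L.{u} n} : XX.pt n a ∈ XX.up n b ↔ b < a := by
  constructor
  · intro h
    by_contra h'
    exact h a (not_lt.1 h') rfl
  · intro h c hc h'
    rw [XX.pt_inj h'] at h
    exact absurd hc (not_le.2 h)

/-- The complement of the `n`-th piece. -/
def XX.off (n : ℕ) : Set XX.{u} := {x | ∀ a, x ≠ XX.pt n a}

theorem XX.isOpen_off (n : ℕ) : IsOpen (XX.off.{u} n) := by
  refine ⟨fun k => ?_, fun _ => ⟨n + 1, fun k hk a c => XX.pt_ne (by omega)⟩⟩
  rcases eq_or_ne k n with rfl | h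
  · exact Or.inr fun c hc => absurd rfl (hc c)
  · exact Or.inl (eq_univ_of_forall fun a c => XX.pt_ne h)

theorem XX.isClosed_off (n : ℕ) : IsClosed (XX.off.{u} n) := by
  rw [← isOpen_compl_iff]
  refine ⟨fun k => ?_, fun h => ?_⟩
  · rcases eq_or_ne k n with rfl | h
    · exact Or.inl (eq_univ_of_forall fun a h => h a rfl)
    · exact Or.inr fun c hc => absurd (fun d => XX.pt_ne h) hc
  · exact absurd (fun a h' => XX.pt_ne_inf h'.symm) h

theorem XX.isOpen_compl_inf : IsOpen ({XX.inf}ᶜ : Set XX.{u}) :=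
  ⟨fun _ => Or.inl (eq_univ_of_forall fun _ h => XX.pt_ne_inf h), fun h => absurd rfl h⟩

/-- Every set containing `∞` is compact. -/
theorem XX.isCompact {K : Set XX.{u}} (hK : XX.inf ∈ K) : IsCompact K := by
  classical
  refine isCompact_of_finite_subcover fun {κ} U hU hKU => ?_
  obtain ⟨i₀, hi₀⟩ := mem_iUnion.1 (hKU hK)
  obtain ⟨n₀, hn₀⟩ := (hU i₀).2 hi₀
  have : ∀ n : ℕ, ∃ i : κ, ∀ a : L.{u} n, XX.pt n a ∈ K → XX.pt n a ∈ U i := by
    intro n
    by_cases h : ∃ a : L.{u} n, XX.pt n a ∈ K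
    · have hm := WellFounded.min_mem (wellFounded_lt (α := L.{u} n)) {a | XX.pt n a ∈ K} h
      obtain ⟨i, hi⟩ := mem_iUnion.1 (hKU hm)
      refine ⟨i, fun a ha => XX.upper (hU i) ?_ hi⟩
      exact not_lt.1 (WellFounded.not_lt_min (wellFounded_lt (α := L.{u} n)) _ ha)
    · exact ⟨i₀, fun a ha => absurd ⟨a, ha⟩ h⟩
  choose f hf using this
  refine ⟨insert i₀ ((Finset.range n₀).image f), fun x hx => ?_⟩
  rcases XX.cases' x with rfl | ⟨n, a, rfl⟩
  · exact mem_biUnion (Finset.mem_insert_self _ _) hi₀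
  · by_cases hn : n₀ ≤ n
    · exact mem_biUnion (Finset.mem_insert_self _ _) (hn₀ n hn a)
    · exact mem_biUnion (Finset.mem_insert_of_mem (Finset.mem_image_of_mem f
        (Finset.mem_range.2 (not_le.1 hn)))) (hf n a hx)

theorem XX.saturated_of_isOpen {X : Type u} [TopologicalSpace X] {U : Set X} (hU : IsOpen U) :
    Saturated U :=
  fun _ hx _ hxy => mem_of_cl hU hxy hx

theorem XX.t0 : T0Space XX.{u} := by
  rw [t0Space_iff_inseparable]
  intro x y hxy
  rcases XX.cases' x with rfl | ⟨n, a, rfl⟩ <;> rcases XX.cases' y with rfl | ⟨m, b, rfl⟩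
  · rfl
  · exact absurd ((hxy.mem_open_iff XX.isOpen_compl_inf).2 XX.pt_ne_inf) (fun h => h rfl)
  · exact absurd ((hxy.mem_open_iff XX.isOpen_compl_inf).1 XX.pt_ne_inf) (fun h => h rfl)
  · rcases eq_or_ne n m with rfl | h
    · rcases lt_trichotomy a b with h | rfl | h
      · have := (hxy.mem_open_iff (XX.isOpen_up n a)).2 (XX.mem_up.2 h)
        exact absurd (XX.mem_up.1 this) (lt_irrefl a)
      · rfl
      · have := (hxy.mem_open_iff (XX.isOpen_up n b)).1 (XX.mem_up.2 h)
        exact absurd (XX.mem_up.1 this) (lt_irrefl b)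
    · have := (hxy.mem_open_iff (XX.isOpen_off n)).2 (fun c => XX.pt_ne h.symm)
      exact absurd rfl (this a)

/-- The `n`-th piece is `K`-determined. -/
theorem XX.det_piece (n : ℕ) : DetSet KK.{u} (XX.off.{u} n)ᶜ := by
  intro Y _ hY g hg
  have := hY.1
  let f : L.{u} n → Set Y := fun a => sat {g (XX.pt n a)}
  have fne : ∀ a, (f a).Nonempty := fun a => ⟨_, subset_sat _ rfl⟩
  have fcomp : ∀ a, IsCompact (f a) := fun a => isCompact_sat isCompact_singleton
  have fsat : ∀ a, Saturated (f a) := fun a => saturated_sat _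
  have fanti : Antitone f := by
    rintro a b hab z ⟨_, rfl, hz⟩
    refine ⟨_, rfl, cl_trans ?_ hz⟩
    rw [mem_cl_iff]
    intro U hU h
    exact mem_of_cl (hU.preimage hg) (XX.mem_cl hab) h
  have hQ : ∀ V : Set Y, IsOpen V → (⋂ a, f a) ⊆ V → ∃ a, f a ⊆ V := fun V hV h =>
    hY.2 n f fne fcomp fsat fanti V hV h
  have hmeetQ : ((⋂ a, f a) ∩ closure (g '' (XX.off.{u} n)ᶜ)).Nonempty := by
    by_contra h
    obtain ⟨a, ha⟩ := hQ (closure (g '' (XX.off.{u} n)ᶜ))ᶜ isClosed_closure.isOpen_compl (by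
      intro y hy hy'
      exact h ⟨y, hy, hy'⟩)
    exact ha (subset_sat _ rfl) (subset_closure ⟨_, fun h => h a rfl, rfl⟩)
  obtain ⟨y, hyQ, hyF⟩ := hmeetQ
  have h1 : closure (g '' (XX.off.{u} n)ᶜ) = closure {y} := by
    apply subset_antisymm
    · refine closure_minimal ?_ isClosed_closure
      rintro _ ⟨x, hx, rfl⟩
      rcases XX.cases' x with rfl | ⟨k, a, rfl⟩
      · exact absurd (fun a h' => XX.pt_ne_inf h'.symm) hx
      · rcases eq_or_ne k n with rfl | h
        · obtain ⟨_, rfl, hz⟩ := mem_iInter.1 hyQ a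
          exact hz
        · exact absurd (fun c => XX.pt_ne h) hx
    · exact closure_minimal (singleton_subset_iff.2 hyF) isClosed_closure
  exact ⟨y, h1, fun z hz => (t0Space_iff_inseparable Y).1 inferInstance z y
        (inseparable_iff_closure_eq.2 (hz.symm.trans h1))⟩

theorem XX.det : DetSpace KK.{u} XX.{u} := by
  apply subset_antisymm
  · rintro F ⟨hF, hirr⟩
    refine ⟨hF, ?_⟩
    by_cases hn : ∃ n, ∃ a : L.{u} n, XX.pt n a ∈ F
    · obtain ⟨n, hn⟩ := hn
      have hFn : F ⊆ (XX.off.{u} n)ᶜ := by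
        have hpre := isPreirreducible_iff_isClosed_union_isClosed.1 hirr.2
        rcases hpre (XX.off.{u} n) (XX.off.{u} n)ᶜ (XX.isClosed_off n)
          (XX.isOpen_off n).isClosed_compl (by rw [union_compl_self]; exact subset_univ _) with h | h
        · obtain ⟨a, ha⟩ := hn
          exact absurd rfl (h ha a)
        · exact h
      rcases hF.isOpen_compl.1 n with h | h
      · obtain ⟨a, ha⟩ := hn
        exact absurd ha (h ▸ mem_univ a : a ∈ {a : L.{u} n | XX.pt n a ∈ Fᶜ})
      · by_cases hne : ∃ b : L.{u} n, XX.pt n b ∉ F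
        · -- a proper initial segment
          let b := WellFounded.min (wellFounded_lt (α := L.{u} n)) {a | XX.pt n a ∈ Fᶜ} hne
          have hb : XX.pt n b ∈ Fᶜ :=
            WellFounded.min_mem (wellFounded_lt (α := L.{u} n)) {a | XX.pt n a ∈ Fᶜ} hne
          have hlt : ∀ a < b, XX.pt n a ∈ F := by
            intro a ha
            by_contra h'
            exact WellFounded.not_lt_min (wellFounded_lt (α := L.{u} n)) _ h' ha
          obtain ⟨a, hab, ha⟩ := h b hb
          have : F = closure {XX.pt n a} := by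
            apply subset_antisymm
            · intro x hx
              rcases XX.cases' x with rfl | ⟨k, c, rfl⟩
              · exact absurd (fun a h' => XX.pt_ne_inf h'.symm) (hFn hx)
              · rcases eq_or_ne k n with rfl | h'
                · refine XX.mem_cl ?_
                  by_contra hc
                  exact ha (not_le.1 hc) hx
                · exact absurd (fun c => XX.pt_ne h') (hFn hx)
            · exact closure_minimal (singleton_subset_iff.2 (hlt a hab)) hF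
          rw [this]
          exact detSet_closure_singleton (fun _ _ h => h.1) _
        · push Not at hne
          have : F = (XX.off.{u} n)ᶜ := by
            refine subset_antisymm hFn ?_
            intro x hx
            rcases XX.cases' x with rfl | ⟨k, c, rfl⟩
            · exact absurd (fun a h' => XX.pt_ne_inf h'.symm) hx
            · rcases eq_or_ne k n with rfl | h'
              · exact hne c
              · exact absurd (fun c => XX.pt_ne h') hx
          rw [this]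
          exact XX.det_piece n
    · push Not at hn
      have : F = closure {XX.inf} := by
        apply subset_antisymm
        · intro x hx
          rcases XX.cases' x with rfl | ⟨k, c, rfl⟩
          · exact subset_closure rfl
          · exact absurd hx (hn k c)
        · obtain ⟨x, hx⟩ := hirr.1
          rcases XX.cases' x with rfl | ⟨k, c, rfl⟩
          · exact closure_minimal (singleton_subset_iff.2 hx) hF
          · exact absurd hx (hn k c)
      rw [this]
      exact detSet_closure_singleton (fun _ _ h => h.1) _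
  · exact KK_irr

end Pool.Agent.Lib.MP_360cb4_gt
end

section

set_option autoImplicit false

universe u

namespace Pool.Agent.Lib.MP_360cb4_gt

open Set

/-- `L n` with two new top elements. -/
abbrev M (n : ℕ) : Type u := WithTop (WithTop (L.{u} n))

/-- The lower one of the two new elements: the missing supremum of `L n`. -/
def pp (n : ℕ) : M.{u} n := ((⊤ : WithTop (L.{u} n)) : M.{u} n)

/-- The element of `M n` given by an element of `L n`. -/
def emb (n : ℕ) (a : L.{u} n) : M.{u} n := ((a : WithTop (L.{u} n)) : M.{u} n)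

theorem emb_lt_emb {n : ℕ} {a b : L.{u} n} : emb n a < emb n b ↔ a < b := by
  simp [emb]

theorem emb_lt_pp {n : ℕ} (a : L.{u} n) : emb n a < pp n := by
  simp [emb, pp]

theorem pp_lt_top {n : ℕ} : pp.{u} n < ⊤ := by
  simp [pp]

theorem lt_pp {n : ℕ} {x : M.{u} n} (h : x < pp n) : ∃ a, x = emb n a := by
  induction x using WithTop.recTopCoe with
  | top => exact absurd h (not_lt.2 le_top)
  | coe x =>
    induction x using WithTop.recTopCoe with
    | top => exact absurd h (lt_irrefl _)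
    | coe a => exact ⟨a, rfl⟩

theorem M_cases {n : ℕ} (x : M.{u} n) : (∃ a, x = emb n a) ∨ x = pp n ∨ x = ⊤ := by
  induction x using WithTop.recTopCoe with
  | top => exact Or.inr (Or.inr rfl)
  | coe x =>
    induction x using WithTop.recTopCoe with
    | top => exact Or.inr (Or.inl rfl)
    | coe a => exact Or.inl ⟨a, rfl⟩

/-- The target space: functions taking the value `pp` only finitely often. -/
def YY : Type u := {a : ∀ n : ℕ, M.{u} n // {n | a n = pp n}.Finite}

instance : TopologicalSpace YY.{u} :=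
  TopologicalSpace.generateFrom {S | ∃ (n : ℕ) (b : M.{u} n), S = {a : YY.{u} | b < a.1 n}}

theorem YY.isOpen_sub (n : ℕ) (b : M.{u} n) : IsOpen {a : YY.{u} | b < a.1 n} :=
  TopologicalSpace.isOpen_generateFrom_of_mem ⟨n, b, rfl⟩

theorem YY.upper {O : Set YY.{u}} (hO : IsOpen O) {c d : YY.{u}} (hcd : ∀ n, c.1 n ≤ d.1 n)
    (hc : c ∈ O) : d ∈ O := by
  induction hO with
  | basic s hs =>
    obtain ⟨n, b, rfl⟩ := hs
    exact lt_of_lt_of_le hc (hcd n)
  | univ => trivial
  | inter s t _ _ ihs iht => exact ⟨ihs hc.1, iht hc.2⟩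
  | sUnion S _ ih =>
    obtain ⟨s, hs, hcs⟩ := hc
    exact ⟨s, hs, ih s hs hcs⟩

theorem YY.t0 : T0Space YY.{u} := by
  rw [t0Space_iff_inseparable]
  intro x y hxy
  apply Subtype.ext
  funext n
  rcases lt_trichotomy (x.1 n) (y.1 n) with h | h | h
  · exact (lt_irrefl (x.1 n) ((hxy.mem_open_iff (YY.isOpen_sub n (x.1 n))).2 h)).elim
  · exact h
  · exact (lt_irrefl (y.1 n) ((hxy.mem_open_iff (YY.isOpen_sub n (y.1 n))).1 h)).elim

theorem YY.wf (m : ℕ) : ChainWF (L.{u} m) YY.{u} := by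
  intro D hne hcomp hsat hanti U hU hDU
  by_contra hcon
  push Not at hcon
  obtain ⟨C, hCU, hcl, hmeet, hmin⟩ := rudin hcomp hU.isClosed_compl (by
    intro a
    obtain ⟨x, hx, hxU⟩ := not_subset.1 (hcon a)
    exact ⟨x, hx, hxU⟩)
  have hirr := rudin_irred hanti hcl hmeet hmin
  -- the pointwise supremum of `C`
  have hy : ∀ n, ∃ y : M.{u} n, (∀ c ∈ C, c.1 n ≤ y) ∧ ∀ b < y, ∃ c ∈ C, b < c.1 n := by
    intro n
    let T : Set (M.{u} n) := {b | ∀ c ∈ C, c.1 n ≤ b}
    have hT : T.Nonempty := ⟨⊤, fun _ _ => le_top⟩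
    refine ⟨WellFounded.min (wellFounded_lt (α := M.{u} n)) T hT,
      WellFounded.min_mem (wellFounded_lt (α := M.{u} n)) T hT, fun b hb => ?_⟩
    by_contra h
    push Not at h
    exact WellFounded.not_lt_min (wellFounded_lt (α := M.{u} n)) T h hb
  choose y hy1 hy2 using hy
  have claimA : ∀ c : YY.{u}, (∀ n, c.1 n ≤ y n) → c ∈ C := by
    intro c hc
    have key : ∀ O : Set YY.{u}, IsOpen O → c ∈ O → (C ∩ O).Nonempty := by
      intro O hO
      induction hO with
      | basic s hs =>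
        intro hcs
        obtain ⟨n, b, rfl⟩ := hs
        obtain ⟨d, hd, hbd⟩ := hy2 n b (lt_of_lt_of_le hcs (hc n))
        exact ⟨d, hd, hbd⟩
      | univ =>
        intro _
        obtain ⟨d, hd⟩ := hirr.1
        exact ⟨d, hd, trivial⟩
      | inter s t hs ht ihs iht =>
        intro hcst
        exact hirr.2 s t hs ht (ihs hcst.1) (iht hcst.2)
      | sUnion S _ ih =>
        intro hcS
        obtain ⟨s, hs, hcs⟩ := hcS
        obtain ⟨d, hd, hds⟩ := ih s hs hcs
        exact ⟨d, hd, s, hs, hds⟩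
    by_contra hcC
    obtain ⟨d, hd, hd'⟩ := key Cᶜ hcl.isOpen_compl hcC
    exact hd' hd
  by_cases hfin : {n | y n = pp n}.Finite
  · let Y : YY.{u} := ⟨y, hfin⟩
    have hYC : Y ∈ C := claimA Y fun n => le_refl _
    refine hCU hYC (hDU (mem_iInter.2 fun a => ?_))
    obtain ⟨c, hcD, hcC⟩ := hmeet a
    exact hsat a c hcD Y (mem_cl_iff.2 fun O hO hcO => YY.upper hO (fun n => hy1 n c hcC) hcO)
  · have claimB : ∀ n, ∃ a : L.{u} m, y n = pp n → n ≠ m → ∀ c ∈ D a ∩ C, c.1 n = pp n := by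
      intro n
      by_cases hn : y n = pp n ∧ n ≠ m
      · obtain ⟨hyn, hnm⟩ := hn
        by_contra hneg
        have hneg' : ∀ a : L.{u} m, ∃ b : L.{u} n, ∃ c ∈ D a ∩ C, c.1 n = emb n b := by
          intro a
          by_contra h
          refine hneg ⟨a, fun _ _ c hc => ?_⟩
          rcases lt_or_eq_of_le (hy1 n c hc.2) with h' | h'
          · rw [hyn] at h'
            obtain ⟨b, hb⟩ := lt_pp h'
            exact absurd ⟨b, c, hc, hb⟩ h
          · rw [h', hyn]
        have hB1 : ∀ b : L.{u} n, ∃ a : L.{u} m, ∀ c ∈ D a ∩ C, emb n b < c.1 n := by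
          intro b
          obtain ⟨c, hc, hbc⟩ := hy2 n (emb n b) (by rw [hyn]; exact emb_lt_pp b)
          obtain ⟨a, ha⟩ := rudin_open hcl hmin (YY.isOpen_sub n (emb n b)) ⟨c, hc, hbc⟩
          exact ⟨a, fun c hc => ha hc⟩
        choose α hα using hB1
        choose γ hγ using hneg'
        rcases lt_or_gt_of_ne hnm with h | h
        · obtain ⟨a, ha⟩ := L_bdd_range (m := m) α (by rw [card_L]; exact aleph_lt h)
          obtain ⟨c, hc, hcb⟩ := hγ a
          have := hα (γ a) c ⟨hanti (ha (γ a)).le hc.1, hc.2⟩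
          rw [hcb] at this
          exact lt_irrefl _ this
        · obtain ⟨b, hb⟩ := L_bdd_range (m := n) γ (by rw [card_L]; exact aleph_lt h)
          obtain ⟨c, hc, hcb⟩ := hγ (α b)
          have := hα b c hc
          rw [hcb, emb_lt_emb] at this
          exact lt_asymm this (hb _)
      · exact ⟨Classical.arbitrary _, fun h1 h2 => absurd ⟨h1, h2⟩ hn⟩
    choose A hA using claimB
    obtain ⟨a, ha⟩ := L_bdd_nat A
    obtain ⟨c, hcD, hcC⟩ := hmeet a
    apply hfin
    refine (c.2.union (finite_singleton m)).subset fun n hn => ?_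
    by_cases h : n = m
    · exact Or.inr h
    · exact Or.inl (hA n hn h c ⟨hanti (ha n).le hcD, hcC⟩)

theorem KK_YY : KK YY.{u} := ⟨YY.t0, YY.wf⟩

open Classical in
/-- The value of the map `h` at `n`. -/
noncomputable def hval (K : PS XX.{u}) (n : ℕ) : M.{u} n :=
  if h : {a : L.{u} n | XX.pt n a ∈ K.1}.Nonempty then
    emb n (WellFounded.min (wellFounded_lt (α := L.{u} n)) {a : L.{u} n | XX.pt n a ∈ K.1} h)
  else ⊤

theorem hval_ne_pp (K : PS XX.{u}) (n : ℕ) : hval K n ≠ pp n := by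
  unfold hval
  split_ifs with h
  · exact (emb_lt_pp _).ne
  · exact pp_lt_top.ne'

theorem emb_lt_hval {K : PS XX.{u}} {n : ℕ} {b : L.{u} n} :
    emb n b < hval K n ↔ K.1 ⊆ XX.up n b := by
  unfold hval
  split_ifs with h
  · rw [emb_lt_emb]
    constructor
    · intro hb x hx a hab hxa
      subst hxa
      exact WellFounded.not_lt_min (wellFounded_lt (α := L.{u} n)) _ hx (lt_of_le_of_lt hab hb)
    · intro hK
      exact XX.mem_up.1 (hK (WellFounded.min_mem (wellFounded_lt (α := L.{u} n)) _ h))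
  · constructor
    · intro _ x hx a _ hxa
      subst hxa
      exact h ⟨a, hx⟩
    · intro _
      exact (emb_lt_pp b).trans pp_lt_top

theorem pp_lt_hval {K : PS XX.{u}} {n : ℕ} :
    pp n < hval K n ↔ K.1 ⊆ XX.off n := by
  unfold hval
  split_ifs with h
  · constructor
    · intro h'
      exact absurd (emb_lt_pp _) (lt_asymm h')
    · intro hK
      obtain ⟨a, ha⟩ := h
      exact absurd rfl (hK ha a)
  · constructor
    · intro _ x hx a hxa
      subst hxa
      exact h ⟨a, hx⟩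
    · intro _
      exact pp_lt_top

/-- The map `P_S(X) → Y`. -/
noncomputable def hh (K : PS XX.{u}) : YY.{u} := ⟨hval K, by
  have : {n | hval K n = pp n} = ∅ := eq_empty_of_forall_notMem fun n hn => hval_ne_pp K n hn
  rw [this]
  exact finite_empty⟩

theorem continuous_hh : Continuous hh.{u} := by
  rw [continuous_generateFrom_iff]
  rintro _ ⟨n, b, rfl⟩
  rcases M_cases b with ⟨b, rfl⟩ | rfl | rfl
  · have : hh ⁻¹' {a : YY.{u} | emb n b < a.1 n} = box (XX.up n b) := by
      ext K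
      exact emb_lt_hval
    rw [this]
    exact isOpen_box (XX.isOpen_up n b)
  · have : hh ⁻¹' {a : YY.{u} | pp n < a.1 n} = box (XX.off n) := by
      ext K
      exact pp_lt_hval
    rw [this]
    exact isOpen_box (XX.isOpen_off n)
  · have : hh ⁻¹' {a : YY.{u} | ⊤ < a.1 n} = ∅ := by
      refine eq_empty_of_forall_notMem fun K hK => ?_
      have hK' : (⊤ : M.{u} n) < (hh K).1 n := hK
      exact not_top_lt hK'
    rw [this]
    exact isOpen_empty

/-- The irreducible closed set which is not `K`-determined. -/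
def AA : Set (PS XX.{u}) := {K | XX.inf ∈ K.1 ∧ ∀ n, ∃ a, XX.pt n a ∈ K.1}

theorem isClosed_AA : IsClosed AA.{u} := by
  have : AA.{u} = (box {XX.inf}ᶜ)ᶜ ∩ ⋂ n, (box (XX.off n))ᶜ := by
    ext K
    simp only [AA, mem_ofPred_eq, mem_inter_iff, mem_iInter, mem_compl_iff]
    constructor
    · rintro ⟨h1, h2⟩
      refine ⟨fun h => h h1 rfl, fun n h => ?_⟩
      obtain ⟨a, ha⟩ := h2 n
      exact h ha a rfl
    · rintro ⟨h1, h2⟩
      refine ⟨?_, fun n => ?_⟩
      · by_contra h
        exact h1 fun x hx hx' => h (by rw [mem_singleton_iff] at hx'; exact hx' ▸ hx)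
      · by_contra h
        push Not at h
        exact h2 n fun x hx a hxa => h a (hxa ▸ hx)
  rw [this]
  exact (isOpen_box XX.isOpen_compl_inf).isClosed_compl.inter
    (isClosed_iInter fun n => (isOpen_box (XX.isOpen_off n)).isClosed_compl)

theorem irreducible_AA : IsIrreducible AA.{u} := by
  constructor
  · refine ⟨⟨univ, ⟨XX.inf, trivial⟩, XX.isCompact trivial, fun _ _ _ _ => trivial⟩, trivial,
      fun n => ⟨Classical.arbitrary _, trivial⟩⟩
  · intro P Q hP hQ hAP hAQ
    obtain ⟨K, hKA, hKP⟩ := hAP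
    obtain ⟨K', hKA', hKQ⟩ := hAQ
    obtain ⟨U, hU, hKU, hUP⟩ := exists_box hP hKP
    obtain ⟨V, hV, hKV, hVQ⟩ := exists_box hQ hKQ
    have hsat : Saturated (K.1 ∩ K'.1) := fun x hx y hxy =>
      ⟨K.2.2.2 x hx.1 y hxy, K'.2.2.2 x hx.2 y hxy⟩
    let K'' : PS XX.{u} := ⟨K.1 ∩ K'.1, ⟨XX.inf, hKA.1, hKA'.1⟩, XX.isCompact ⟨hKA.1, hKA'.1⟩, hsat⟩
    refine ⟨K'', ⟨⟨hKA.1, hKA'.1⟩, fun n => ?_⟩, hUP (inter_subset_left.trans hKU),
      hVQ (inter_subset_right.trans hKV)⟩
    obtain ⟨a, ha⟩ := hKA.2 n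
    obtain ⟨b, hb⟩ := hKA'.2 n
    exact ⟨max a b, K.2.2.2 _ ha _ (XX.mem_cl (le_max_left a b)),
      K'.2.2.2 _ hb _ (XX.mem_cl (le_max_right a b))⟩

theorem not_det_AA : ¬ DetSet KK.{u} AA.{u} := by
  intro h
  obtain ⟨y, hy, -⟩ := h YY.{u} KK_YY hh continuous_hh
  have key : ∀ n, y.1 n = pp n := by
    intro n
    have h1 : ∀ b : L.{u} n, emb n b < y.1 n := by
      intro b
      have : y ∈ {a : YY.{u} | emb n b < a.1 n} := by
        rw [mem_open_iff_of_closure_eq (YY.isOpen_sub n _) hy]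
        have hinf : XX.inf ∈ XX.up n b := fun a _ h => XX.pt_ne_inf h.symm
        let K : PS XX.{u} := ⟨XX.up n b, ⟨XX.inf, hinf⟩, XX.isCompact hinf,
          XX.saturated_of_isOpen (XX.isOpen_up n b)⟩
        refine ⟨hh K, ⟨K, ⟨hinf, fun k => ?_⟩, rfl⟩, emb_lt_hval.2 subset_rfl⟩
        rcases eq_or_ne k n with rfl | hkn
        · obtain ⟨c, hc⟩ := L_noMax b
          exact ⟨c, XX.mem_up.2 hc⟩
        · exact ⟨Classical.arbitrary _, fun a _ => XX.pt_ne hkn⟩
      exact this
    have h2 : ¬ pp n < y.1 n := by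
      intro h2
      have : y ∈ {a : YY.{u} | pp n < a.1 n} := h2
      rw [mem_open_iff_of_closure_eq (YY.isOpen_sub n _) hy] at this
      obtain ⟨_, ⟨K, hK, rfl⟩, hK'⟩ := this
      obtain ⟨a, ha⟩ := hK.2 n
      exact (pp_lt_hval.1 hK') ha a rfl
    rcases M_cases (y.1 n) with ⟨a, ha⟩ | ha | ha
    · have := h1 a
      rw [ha] at this
      exact absurd this (lt_irrefl _)
    · exact ha
    · rw [ha] at h2
      exact absurd pp_lt_top h2
  have : {n | y.1 n = pp n} = univ := eq_univ_of_forall key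
  exact infinite_univ (this ▸ y.2)

end Pool.Agent.Lib.MP_360cb4_gt
end
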